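import Pool.Agent.H72.NU.Def
import Pool.Agent.H95.L1.Rgs

/-!
# [H72 NU PP] Elementary facts on admissible data

* `pp_gt`: a prime not dividing `W` does not divide `primorial w`, so it is `> w`.
* `dif`: a prime of `PP x a W` (or any prime `≥ x^a`, once `(log x)^A < x^a`, since the primes of `W` are `≤ W ≤ (log x)^A`) divides no
  difference.
-/

namespace Pool.Agent.H72.NU

open Finset Filter Pool.Agent.H92.MM Pool.Agent.H95.L1

/-- powers of `log x` are smaller than powers of `x` -/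
theorem log_lt (A c : ℝ) (hc : 0 < c) : ∀ᶠ x : ℝ in atTop, Real.log x ^ A < x ^ c := by
  have h1 := (isLittleO_log_rpow_rpow_atTop A hc).bound (show (0 : ℝ) < 1 / 2 by norm_num)
  filter_upwards [h1, eventually_gt_atTop (1 : ℝ)] with x hx hx1
  have h2 : 0 ≤ Real.log x := Real.log_nonneg hx1.le
  rw [Real.norm_of_nonneg (Real.rpow_nonneg h2 _),
    Real.norm_of_nonneg (Real.rpow_nonneg (by linarith) _)] at hx
  have h3 : 0 < x ^ c := Real.rpow_pos_of_pos (by linarith) _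
  linarith

theorem prim_gt {w W p : ℕ} (hw : primorial w ∣ W) (hp : p.Prime) (hd : ¬ p ∣ W) : w < p := by
  by_contra h
  push Not at h
  exact hd ((hp.dvd_primorial_iff.2 h).trans hw)

variable {ι : Type} {A : ℝ} {w : ℕ} {x : ℝ} {h : ι → ℕ} {W b : ℕ}

theorem Okk.W_pos (hk : Okk A w x h W b) : 0 < W := hk.pos

theorem Okk.pp_gt (hk : Okk A w x h W b) {a : ℝ} {p : ℕ} (hp : p ∈ PP x a W) : w < p :=
  prim_gt hk.pw (mem_PP.1 hp).1 (mem_PP.1 hp).2.1

theorem Okk.ndvd (hk : Okk A w x h W b) {p : ℕ} (hp : p.Prime) (hd : ¬ p ∣ W) :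
    ∀ i j : ι, i ≠ j → ¬ (p : ℤ) ∣ (h i : ℤ) - h j :=
  fun i j hij hdvd => hd (hk.dif i j hij p hp hdvd)

/-- the primes of `W` are at most `(log x)^A` -/
theorem Okk.p_le (hk : Okk A w x h W b) {p : ℕ} (hd : p ∣ W) : (p : ℝ) ≤ Real.log x ^ A := by
  have h1 : (p : ℝ) ≤ W := by exact_mod_cast Nat.le_of_dvd hk.W_pos hd
  exact h1.trans hk.wle

/-- large primes do not divide `W` -/
theorem Okk.big (hk : Okk A w x h W b) {a : ℝ} (ha : Real.log x ^ A < x ^ a) {p : ℕ}
    (hp : x ^ a ≤ (p : ℝ)) : ¬ p ∣ W := fun hd => by linarith [hk.p_le hd]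

end Pool.Agent.H72.NU
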