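import Pool.Agent.H72.NU.Pp
import Pool.Agent.H11.RG.Pat

/-!
# [H72 NU PAT] Distribution of the values of a weight given by patterns, shifts depending on `x` (from `H11/RG/Pat.lean`)
-/

namespace Pool.Agent.H72.NU

open Finset Filter Pool.Agent.H89.P2 Pool.Agent.H11.PT Pool.Agent.H11.RG

/-- shifts smaller than every power of `x` -/
def Sml (h : ℝ → ℕ) : Prop := ∀ c : ℝ, 0 < c → ∀ᶠ x : ℝ in atTop, (h x : ℝ) ≤ x ^ c

theorem Sml.succ {h : ℝ → ℕ} (hh : Sml h) : Sml (fun x => h x + 1) := by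
  intro c hc
  filter_upwards [hh (c / 2) (by positivity), (tendsto_rpow_atTop (show 0 < c / 2 by
    positivity)).eventually_ge_atTop (2 : ℝ), eventually_ge_atTop (1 : ℝ)] with x h1 h2 h3
  have h4 : x ^ c = x ^ (c / 2) * x ^ (c / 2) := by
    rw [← Real.rpow_add (by linarith)]
    congr 1
    ring
  push_cast
  rw [h4]
  nlinarith

theorem sml_log {h : ℝ → ℕ} (B : ℝ) (hb : ∀ᶠ x : ℝ in atTop, (h x : ℝ) ≤ Real.log x ^ B) :
    Sml h := by
  intro c hc
  filter_upwards [hb, log_lt B c hc] with x h1 h2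
  exact h1.trans h2.le

theorem pat_fun (δ a0 : ℝ) (hδ : 0 < δ) (ha0 : 0 < a0) (ha1 : a0 ≤ 1 / 2)
    (v w : ℝ × List ℕ × List ℕ) (hv : Okw δ a0 [v]) (hw : Okw δ a0 [w]) (h h' : ℝ → ℕ)
    (hh : Sml h) (hh' : Sml h') (hne : ∀ᶠ x : ℝ in atTop, h x ≠ h' x) :
    IntD (1 / 2000) a0
      (fun x N => mono (v.2.1 ++ v.2.2) (kk x δ (N + h x)) *
        mono (w.2.1 ++ w.2.2) (kk x δ (N + h' x)))
      (fun x => ((v.2.1 ++ v.2.2).map (ms x δ)).prod * ((w.2.1 ++ w.2.2).map (ms x δ)).prod) := by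
  have hv1 := hv.1 v (List.mem_singleton_self v)
  have hv2 := hv.2 v (List.mem_singleton_self v)
  have hw1 := hw.1 w (List.mem_singleton_self w)
  have hw2 := hw.2 w (List.mem_singleton_self w)
  obtain ⟨c, θ, x0, hc, hθ, H⟩ := pat_pair_b δ (1 / 2000) a0 hδ (by norm_num) (by norm_num) ha0 ha1
    v.2.1 v.2.2 w.2.1 w.2.2
    (fun j hj => hv1 j (List.mem_append_left _ hj)) (fun j hj => hv1 j (List.mem_append_right _ hj))
    (fun j hj => hw1 j (List.mem_append_left _ hj)) (fun j hj => hw1 j (List.mem_append_right _ hj))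
    hv2.1 hv2.2 hw2.1 hw2.2
  refine ⟨c, θ, 1, hc, hθ, one_pos, ?_⟩
  filter_upwards [hh c hc, hh' c hc, eventually_ge_atTop x0, hne]
    with x h1 h2 h3 hne X1 X2 q0 r h4 h5 h6 h7 h8
  have h9 := H x h3 X1 X2 q0 (h x) (h' x) r h4 h5 h6 h7 h8 h1 h2 hne
  rw [one_mul]
  exact h9

theorem ev2_fun (δ a0 : ℝ) (hδ : 0 < δ) (ha0 : 0 < a0) (ha1 : a0 ≤ 1 / 2)
    (V W : List (ℝ × List ℕ × List ℕ)) (hV : Okw δ a0 V) (hW : Okw δ a0 W) (h h' : ℝ → ℕ)
    (hh : Sml h) (hh' : Sml h') (hne : ∀ᶠ x : ℝ in atTop, h x ≠ h' x) :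
    IntD (1 / 2000) a0 (fun x N => ev2 V (kk x δ (N + h x)) * ev2 W (kk x δ (N + h' x)))
      (fun x => mv2 V (ms x δ) * mv2 W (ms x δ)) := by
  have hsub : ∀ (U : List (ℝ × List ℕ × List ℕ)), Okw δ a0 U → ∀ v ∈ U, Okw δ a0 [v] := by
    intro U hU v hv
    constructor
    · intro w hw
      rw [List.mem_singleton] at hw
      subst hw
      exact hU.1 w hv
    · intro w hw
      rw [List.mem_singleton] at hw
      subst hw
      exact hU.2 w hv
  have h1 := intd_list V (fun v => v.1)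
    (fun v x N => (W.map fun w => w.1 * (mono (v.2.1 ++ v.2.2) (kk x δ (N + h x)) *
      mono (w.2.1 ++ w.2.2) (kk x δ (N + h' x)))).sum)
    (fun v x => (W.map fun w => w.1 * (((v.2.1 ++ v.2.2).map (ms x δ)).prod *
      ((w.2.1 ++ w.2.2).map (ms x δ)).prod)).sum)
    (fun v hv => intd_list W (fun w => w.1)
      (fun w x N => mono (v.2.1 ++ v.2.2) (kk x δ (N + h x)) *
        mono (w.2.1 ++ w.2.2) (kk x δ (N + h' x)))
      (fun w x => ((v.2.1 ++ v.2.2).map (ms x δ)).prod * ((w.2.1 ++ w.2.2).map (ms x δ)).prod)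
      (fun w hw => pat_fun δ a0 hδ ha0 ha1 v w (hsub V hV v hv) (hsub W hW w hw) h h' hh hh'
        hne))
  have key : ∀ (f g : ℝ × List ℕ × List ℕ → ℝ),
      (V.map fun v => v.1 * (W.map fun w => w.1 * (f v * g w)).sum).sum =
      (V.map fun v => v.1 * f v).sum * (W.map fun w => w.1 * g w).sum := by
    intro f g
    rw [← List.sum_map_mul_right]
    congr 1
    apply List.map_congr_left
    intro v _
    have h2 : (W.map fun w => w.1 * (f v * g w)).sum = f v * (W.map fun w => w.1 * g w).sum := by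
      rw [← List.sum_map_mul_left]
      congr 1
      apply List.map_congr_left
      intro w _
      ring
    rw [h2, mul_assoc]
  refine intd_congr h1 ?_ ?_
  · intro x N _
    exact key _ _
  · intro x
    exact key _ _

theorem ev2_one_fun (δ a0 : ℝ) (hδ : 0 < δ) (ha0 : 0 < a0) (ha1 : a0 ≤ 1 / 2)
    (V : List (ℝ × List ℕ × List ℕ)) (hV : Okw δ a0 V) (h : ℝ → ℕ) (hh : Sml h) :
    IntD (1 / 2000) a0 (fun x N => ev2 V (kk x δ (N + h x))) (fun x => mv2 V (ms x δ)) := by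
  have hW : Okw δ a0 [((1 : ℝ), ([] : List ℕ), ([] : List ℕ))] := by
    constructor
    · intro w hw
      rw [List.mem_singleton] at hw
      subst hw
      intro j hj
      simp at hj
    · intro w hw
      rw [List.mem_singleton] at hw
      subst hw
      simp only [size, List.map_nil, List.sum_nil]
      norm_num
  refine intd_congr (ev2_fun δ a0 hδ ha0 ha1 V _ hV hW h (fun x => h x + 1) hh hh.succ
    (Eventually.of_forall fun x => by omega)) ?_ ?_
  · intro x N _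
    simp [ev2, mono]
  · intro x
    simp [mv2]

end Pool.Agent.H72.NU
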