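import Pool.Agent.H72.NU.Law
import Pool.Agent.H72.NU.Pat
import Pool.Agent.H11.RG.Fin

/-!
# [H72 NU FIN] The law (L3), uniform (from `H11/RG/Fin.lean`)
-/

namespace Pool.Agent.H72.NU

open Finset Filter Topology Pool.Agent.H21.MT Pool.Agent.H92.MM Pool.Agent.H89.P2
  Pool.Agent.H11.PT Pool.Agent.H11.RG

theorem tx_sq (B : ℝ) : ∀ᶠ x : ℝ in atTop, ∀ h : ℕ, (h : ℝ) ≤ Real.log x ^ B → ∀ N ∈ Tx x,
    0 < N + h ∧ ((N + h : ℕ) : ℝ) ≤ x ^ 2 := by
  have e1 := log_lt B (1 / 2) (by norm_num)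
  have e2 : ∀ᶠ x : ℝ in atTop, (2 : ℝ) ≤ x ^ (1 / 2 : ℝ) :=
    (tendsto_rpow_atTop (by norm_num)).eventually_ge_atTop _
  filter_upwards [e1, e2, eventually_ge_atTop (1 : ℝ)] with x e1' e2 hx h hhx N hN
  have e1 : (h : ℝ) ≤ x ^ (1 / 2 : ℝ) := hhx.trans e1'.le
  have hx0 : 0 < x := by linarith
  unfold Tx at hN
  rw [mem_Ioc] at hN
  have h1 : (N : ℝ) ≤ x ^ (1 + 1 / 2000 : ℝ) :=
    (Nat.le_floor_iff (by positivity)).1 hN.2
  refine ⟨by omega, ?_⟩
  push_cast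
  have h2 : x ^ (1 + 1 / 2000 : ℝ) ≤ x ^ (3 / 2 : ℝ) :=
    Real.rpow_le_rpow_of_exponent_le hx (by norm_num)
  have h3 : x ^ (1 / 2 : ℝ) ≤ x ^ (3 / 2 : ℝ) :=
    Real.rpow_le_rpow_of_exponent_le hx (by norm_num)
  have h4 : x ^ 2 = x ^ (3 / 2 : ℝ) * x ^ (1 / 2 : ℝ) := by
    rw [← Real.rpow_add hx0, ← Real.rpow_natCast]
    norm_num
  have h5 : 0 < x ^ (3 / 2 : ℝ) := by positivity
  rw [h4]
  nlinarith

theorem pair_lawU_of (η Θ C0 a0 : ℝ) (hη : 0 < η) (hη1 : η ≤ 1 / 2000) (hΘ : 0 < Θ)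
    (hC0 : 1 ≤ C0) (ha0 : 0 < a0) (ha1 : a0 ≤ 1 / 20)
    (F F' : ℝ → ℕ → ℝ) (EF EF' : ℝ → ℝ)
    (h1 : ∀ x n, |F x n| ≤ F' x n)
    (h2 : ∀ᶠ x : ℝ in atTop, |EF x| ≤ EF' x ∧ EF' x ≤ C0)
    (hs : ∀ h : ℝ → ℕ, Sml h → IntD η a0 (fun x N => F x (N + h x)) EF)
    (hs' : ∀ h : ℝ → ℕ, Sml h → IntD η a0 (fun x N => F' x (N + h x)) EF')
    (hp : ∀ h h' : ℝ → ℕ, Sml h → Sml h' → (∀ᶠ x : ℝ in atTop, h x ≠ h' x) →
      IntD η a0 (fun x N => F x (N + h x) * F x (N + h' x)) (fun x => EF x ^ 2))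
    (hp' : ∀ h h' : ℝ → ℕ, Sml h → Sml h' → (∀ᶠ x : ℝ in atTop, h x ≠ h' x) →
      IntD η a0 (fun x N => F' x (N + h x) * F' x (N + h' x)) (fun x => EF' x ^ 2))
    (hm : ∃ m : ℕ, ∀ᶠ x : ℝ in atTop, ∀ n : ℕ, 0 < n → (n : ℝ) ≤ x ^ 2 → F' x n ≤ x ^ m) :
    PairLawU (η / 1000) Θ a0 F EF := by
  classical
  obtain ⟨m, hm⟩ := hm
  obtain ⟨c0, hc0, happ⟩ := app_fun η Θ (C0 ^ 2) a0 hη hη1 hΘ (one_le_pow₀ hC0) ha0 ha1
  refine ⟨c0, hc0, ?_⟩
  intro ι _ _ _ a L ha haL hKa B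
  by_cases haa : a * 2 ^ L = a0
  swap
  · exact ⟨0, fun w _ => Filter.Eventually.of_forall fun x _ _ _ _ h3 => absurd h3 haa⟩
  obtain ⟨w0, hw0⟩ := happ ι a L ha haa hKa
  refine ⟨w0, fun w hw => ?_⟩
  have happ := hw0 w hw
  have hC02 : C0 ≤ C0 ^ 2 := by nlinarith
  have hF0 : ∀ x n, 0 ≤ F' x n := fun x n => (abs_nonneg _).trans (h1 x n)
  -- the default shifts
  obtain ⟨e0, he0⟩ : ∃ e0 : ι → ℕ, Function.Injective e0 :=
    ⟨fun j => (Fintype.equivFin ι j : ℕ), fun i j hij => (Fintype.equivFin ι).injective (Fin.ext hij)⟩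
  have key : ∀ᶠ x : ℝ in atTop, ∀ t : (ι → ℕ) × ℕ × ℕ, Okk B w x t.1 t.2.1 t.2.2 →
      (∀ j : ι, App x a L t.1 t.2.1 t.2.2 (η / 1000) (Real.exp (-(Θ / a)))
        (fun N => F x (N + t.1 j)) (EF x)) ∧
      (∀ j j' : ι, j ≠ j' → App x a L t.1 t.2.1 t.2.2 (η / 1000) (Real.exp (-(Θ / a)))
        (fun N => F x (N + t.1 j) * F x (N + t.1 j')) (EF x ^ 2)) := by
    apply diag
    intro f
    obtain ⟨g, hg⟩ : ∃ g : ℝ → ι → ℕ, ∀ x, g x =
        if Okk B w x (f x).1 (f x).2.1 (f x).2.2 then (f x).1 else e0 := ⟨_, fun _ => rfl⟩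
    have hginj : ∀ x, Function.Injective (g x) := by
      intro x
      rw [hg]
      split_ifs with hok
      · exact hok.inj
      · exact he0
    -- a bound for the shifts
    have hgb : ∀ j, ∀ᶠ x : ℝ in atTop, (g x j : ℝ) ≤ Real.log x ^ (max B 1) := by
      intro j
      filter_upwards [Real.tendsto_log_atTop.eventually_ge_atTop (1 : ℝ),
        Real.tendsto_log_atTop.eventually_ge_atTop (e0 j : ℝ)] with x hx1 hx2
      rw [hg]
      split_ifs with hok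
      · exact (hok.hh j).trans (Real.rpow_le_rpow_of_exponent_le hx1 (le_max_left _ _))
      · refine hx2.trans ?_
        calc Real.log x = Real.log x ^ (1 : ℝ) := (Real.rpow_one _).symm
          _ ≤ Real.log x ^ (max B 1) := Real.rpow_le_rpow_of_exponent_le hx1 (le_max_right _ _)
    have hsml : ∀ j, Sml (fun x => g x j) := fun j => sml_log _ (hgb j)
    have A1 : ∀ j : ι, ∀ᶠ x : ℝ in atTop, Okk B w x (f x).1 (f x).2.1 (f x).2.2 →
        App x a L (f x).1 (f x).2.1 (f x).2.2 (η / 1000)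
        (Real.exp (-(Θ / a))) (fun N => F x (N + g x j)) (EF x) := by
      intro j
      apply happ B (fun x => (f x).1) (fun x => (f x).2.1) (fun x => (f x).2.2)
        (fun x N => F x (N + g x j)) (fun x N => F' x (N + g x j)) EF EF' (hs _ (hsml j))
        (hs' _ (hsml j))
      · exact Filter.Eventually.of_forall fun x N _ => h1 x _
      · filter_upwards [h2] with x h2
        exact ⟨h2.1, h2.2.trans hC02⟩
      · refine ⟨m, ?_⟩
        filter_upwards [hm, tx_sq (max B 1), hgb j] with x hm h3 h4 N hN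
        exact hm _ (h3 _ h4 N hN).1 (h3 _ h4 N hN).2
    have A2 : ∀ j j' : ι, j ≠ j' → ∀ᶠ x : ℝ in atTop, Okk B w x (f x).1 (f x).2.1 (f x).2.2 →
        App x a L (f x).1 (f x).2.1 (f x).2.2 (η / 1000)
        (Real.exp (-(Θ / a))) (fun N => F x (N + g x j) * F x (N + g x j')) (EF x ^ 2) := by
      intro j j' hjj
      have hne : ∀ᶠ x : ℝ in atTop, g x j ≠ g x j' :=
        Filter.Eventually.of_forall fun x h3 => hjj (hginj x h3)
      apply happ B (fun x => (f x).1) (fun x => (f x).2.1) (fun x => (f x).2.2)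
        (fun x N => F x (N + g x j) * F x (N + g x j'))
        (fun x N => F' x (N + g x j) * F' x (N + g x j')) (fun x => EF x ^ 2)
        (fun x => EF' x ^ 2) (hp _ _ (hsml j) (hsml j') hne) (hp' _ _ (hsml j) (hsml j') hne)
      · refine Filter.Eventually.of_forall fun x N _ => ?_
        rw [abs_mul]
        exact mul_le_mul (h1 x _) (h1 x _) (abs_nonneg _) (hF0 x _)
      · filter_upwards [h2] with x h2
        have h5 := (abs_nonneg _).trans h2.1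
        constructor
        · rw [abs_pow]
          exact pow_le_pow_left₀ (abs_nonneg _) h2.1 2
        · exact pow_le_pow_left₀ h5 h2.2 2
      · refine ⟨m + m, ?_⟩
        filter_upwards [hm, tx_sq (max B 1), hgb j, hgb j'] with x hm h3 h4 h4' N hN
        rw [pow_add]
        exact mul_le_mul (hm _ (h3 _ h4 N hN).1 (h3 _ h4 N hN).2)
          (hm _ (h3 _ h4' N hN).1 (h3 _ h4' N hN).2) (hF0 x _)
          ((hF0 x _).trans (hm _ (h3 _ h4 N hN).1 (h3 _ h4 N hN).2))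
    have B1 := Filter.eventually_all.2 A1
    have B2 : ∀ᶠ x : ℝ in atTop, ∀ j j' : ι, j ≠ j' → Okk B w x (f x).1 (f x).2.1 (f x).2.2 →
        App x a L (f x).1 (f x).2.1 (f x).2.2 (η / 1000)
        (Real.exp (-(Θ / a))) (fun N => F x (N + g x j) * F x (N + g x j')) (EF x ^ 2) := by
      rw [Filter.eventually_all]
      intro j
      rw [Filter.eventually_all]
      intro j'
      by_cases hjj : j = j'
      · exact Filter.Eventually.of_forall fun x h3 => absurd hjj h3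
      · filter_upwards [A2 j j' hjj] with x hx _
        exact hx
    filter_upwards [B1, B2] with x B1 B2 hok
    have hgx : g x = (f x).1 := by rw [hg, if_pos hok]
    constructor
    · intro j
      have h3 := B1 j hok
      rwa [hgx] at h3
    · intro j j' hjj
      have h3 := B2 j j' hjj hok
      rwa [hgx] at h3
  filter_upwards [key] with x hx h W b hok _
  exact hx (h, W, b) hok

theorem pair_lawU_const (η Θ a0 : ℝ) (F : ℝ → ℕ → ℝ) (EF : ℝ → ℝ) (E0 : ℝ)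
    (h : PairLawU η (Θ + 1) a0 F EF) (hE : Tendsto EF atTop (𝓝 E0)) :
    PairLawU η Θ a0 F (fun _ => E0) := by
  obtain ⟨c0, hc0, h⟩ := h
  refine ⟨c0, hc0, ?_⟩
  intro ι _ _ _ a L ha haL hKa B
  obtain ⟨w0, hw0⟩ := h ι a L ha haL hKa B
  refine ⟨w0, fun w hw => ?_⟩
  have h3 := hw0 w hw
  have hgap : 0 < Real.exp (-(Θ / a)) - Real.exp (-((Θ + 1) / a)) := by
    have h4 : -((Θ + 1) / a) < -(Θ / a) := by
      have h5 : Θ / a < (Θ + 1) / a := div_lt_div_of_pos_right (by linarith) ha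
      linarith
    have := Real.exp_lt_exp.2 h4
    linarith
  have hE2 : Tendsto (fun x => EF x ^ 2) atTop (𝓝 (E0 ^ 2)) := hE.pow 2
  have e1 : ∀ᶠ x in atTop, |EF x - E0| ≤ Real.exp (-(Θ / a)) - Real.exp (-((Θ + 1) / a)) := by
    have h5 := (Metric.tendsto_nhds.1 hE) _ hgap
    filter_upwards [h5] with x h5
    rw [Real.dist_eq] at h5
    exact h5.le
  have e2 : ∀ᶠ x in atTop, |EF x ^ 2 - E0 ^ 2| ≤
      Real.exp (-(Θ / a)) - Real.exp (-((Θ + 1) / a)) := by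
    have h5 := (Metric.tendsto_nhds.1 hE2) _ hgap
    filter_upwards [h5] with x h5
    rw [Real.dist_eq] at h5
    exact h5.le
  have conv : ∀ (x : ℝ) (hh : ι → ℕ) (W b : ℕ) (Φ : ℕ → ℝ) (E E' : ℝ), |E - E'| ≤
      Real.exp (-(Θ / a)) - Real.exp (-((Θ + 1) / a)) →
      App x a L hh W b η (Real.exp (-((Θ + 1) / a))) Φ E →
      App x a L hh W b η (Real.exp (-(Θ / a))) Φ E' := by
    intro x hh W b Φ E E' h4 h5 A hA
    have h6 := h5 A hA
    have h7 : Av x a hh W b (fun N => sm x a L hh A N * Φ N) - sv L A * E' =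
        (Av x a hh W b (fun N => sm x a L hh A N * Φ N) - sv L A * E) +
        sv L A * (E - E') := by ring
    rw [h7]
    refine (abs_add_le _ _).trans ?_
    rw [abs_mul, abs_of_nonneg (sv_nonneg L A)]
    have h8 : sv L A * |E - E'| ≤ 1 * |E - E'| :=
      mul_le_mul_of_nonneg_right (sv_le_one L A) (abs_nonneg _)
    linarith
  filter_upwards [h3, e1, e2] with x h3 e1 e2 hh W b hok haa
  obtain ⟨h4, h5⟩ := h3 hh W b hok haa
  exact ⟨fun j => conv x _ _ _ _ _ _ e1 (h4 j), fun j j' hjj => conv x _ _ _ _ _ _ e2 (h5 j j' hjj)⟩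

theorem pair_lawU_mono (η η' Θ a0 : ℝ) (F : ℝ → ℕ → ℝ) (EF : ℝ → ℝ) (hηη : η' ≤ η)
    (h : PairLawU η Θ a0 F EF) : PairLawU η' Θ a0 F EF := by
  obtain ⟨c0, hc0, h⟩ := h
  refine ⟨c0, hc0, ?_⟩
  intro ι _ _ _ a L ha haL hKa B
  obtain ⟨w0, hw0⟩ := h ι a L ha haL hKa B
  refine ⟨w0, fun w hw => ?_⟩
  filter_upwards [hw0 w hw] with x h3 hh W b hok haa
  obtain ⟨h4, h5⟩ := h3 hh W b hok haa
  exact ⟨fun j A hA => h4 j A (hA.trans hηη), fun j j' hjj A hA => h5 j j' hjj A (hA.trans hηη)⟩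

/-- **(L3) for the `P_2` weight** -/
theorem pair_lawU_p2 (η Θ a0 δ : ℝ) (hη1 : η ≤ 1 / 2000) (hΘ : 0 < Θ) (ha0 : 0 < a0)
    (ha1 : a0 ≤ 1 / 20) (hδ : 0 < δ) (W : List (ℝ × List ℕ × List ℕ)) (hW : Okw δ a0 W) :
    PairLawU (η / 1000) Θ a0 (fun x n => ev2 W (kk x δ n)) (fun _ => mv2 W mu) := by
  apply pair_lawU_mono (1 / 2000 / 1000) (η / 1000) Θ a0 _ _ (by linarith)
  have hpos : ∀ w ∈ W, ∀ j ∈ w.2.1 ++ w.2.2, 0 < j := by
    intro w hw j hj
    have h3 := hW.1 w hw j hj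
    rcases Nat.eq_zero_or_pos j with h4 | h4
    · rw [h4, Nat.cast_zero, zero_mul] at h3
      linarith
    · exact h4
  have hms0 : ∀ x j, 0 ≤ ms x δ j := by
    intro x j
    unfold ms
    positivity
  have hmvab : ∀ x, mv2 (ab W) (ms x δ) = mva2 W (ms x δ) := by
    intro x
    unfold mv2 mva2 ab
    rw [List.map_map]
    rfl
  have hbd : ∀ᶠ x : ℝ in atTop, mv2 (ab W) (ms x δ) ≤ |mva2 W mu| + 1 := by
    have h3 := (Metric.tendsto_nhds.1 (mva2_tendsto δ hδ W hpos)) 1 one_pos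
    filter_upwards [h3] with x h3
    rw [hmvab]
    rw [Real.dist_eq] at h3
    have := (abs_lt.1 h3).2
    have := le_abs_self (mva2 W mu)
    linarith
  have key : PairLawU (1 / 2000 / 1000) (Θ + 1) a0 (fun x n => ev2 W (kk x δ n))
      (fun x => mv2 W (ms x δ)) := by
    obtain ⟨m, hm⟩ := ev2_poly δ (ab W)
    apply pair_lawU_of (1 / 2000) (Θ + 1) (|mva2 W mu| + 1) a0 (by norm_num) le_rfl (by linarith)
      (by have := abs_nonneg (mva2 W mu); linarith) ha0 ha1 _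
      (fun x n => ev2 (ab W) (kk x δ n)) _ (fun x => mv2 (ab W) (ms x δ))
    · intro x n
      exact ev2_abs W _
    · filter_upwards [hbd] with x hbd
      exact ⟨mv2_ab W _ (hms0 x), hbd⟩
    · intro h hh
      exact ev2_one_fun δ a0 hδ ha0 (by linarith) W hW h hh
    · intro h hh
      exact ev2_one_fun δ a0 hδ ha0 (by linarith) (ab W) (okw_ab δ a0 W hW) h hh
    · intro h h' hh hh' hne
      exact intd_congr (ev2_fun δ a0 hδ ha0 (by linarith) W W hW hW h h' hh hh' hne)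
        (fun _ _ _ => rfl) (fun x => by ring)
    · intro h h' hh hh' hne
      exact intd_congr (ev2_fun δ a0 hδ ha0 (by linarith) (ab W) (ab W) (okw_ab δ a0 W hW)
        (okw_ab δ a0 W hW) h h' hh hh' hne) (fun _ _ _ => rfl) (fun x => by ring)
    · refine ⟨m, ?_⟩
      filter_upwards [hm] with x hm n hn hn2
      exact (le_abs_self _).trans (hm n hn hn2)
  exact pair_lawU_const _ _ _ _ _ _ key (mv2_tendsto δ hδ W hpos)

end Pool.Agent.H72.NU
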