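import Pool.Agent.H72.NU.Pp
import Pool.Agent.H11.RG.Vb

/-!
# [H72 NU NRM] The products of the presieve, uniformly (from `H11/RG/Vb.lean`)
-/

namespace Pool.Agent.H72.NU

open Finset Filter Pool.Agent.H11.RG

private theorem vb_exp (y : ℝ) (h0 : 0 ≤ y) (h1 : y ≤ 1 / 2) : Real.exp (-(2 * y)) ≤ 1 - y := by
  have h2 : 1 + 2 * y ≤ Real.exp (2 * y) := by
    have := Real.add_one_le_exp (2 * y)
    linarith
  rw [Real.exp_neg, inv_eq_one_div, div_le_iff₀ (Real.exp_pos _)]
  have h3 : (1 - y) * (1 + 2 * y) ≤ (1 - y) * Real.exp (2 * y) :=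
    mul_le_mul_of_nonneg_left h2 (by linarith)
  nlinarith

private theorem vb_ev (A B ε : ℝ) (hA : 0 ≤ A) (hε : 0 < ε) :
    ∀ᶠ x : ℝ in atTop, A * (Real.log (Real.log x) + B) ≤ ε * Real.log x := by
  have h1 : ∀ᶠ L : ℝ in atTop, A * (Real.log L + B) ≤ ε * L := by
    have hc : 0 < ε / (2 * (A + 1)) := by positivity
    have h2 := Real.isLittleO_log_id_atTop.def hc
    filter_upwards [h2, eventually_ge_atTop (2 * A * |B| / ε + 1)] with L hL1 hL2
    have hL0 : 0 < L := by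
      have : 0 ≤ 2 * A * |B| / ε := by positivity
      linarith
    rw [id, Real.norm_eq_abs, Real.norm_eq_abs, abs_of_pos hL0] at hL1
    have h3 : Real.log L ≤ ε / (2 * (A + 1)) * L := (le_abs_self _).trans hL1
    have h4 : A * Real.log L ≤ A * (ε / (2 * (A + 1)) * L) := mul_le_mul_of_nonneg_left h3 hA
    have h5 : A * (ε / (2 * (A + 1)) * L) ≤ ε / 2 * L := by
      have h6 : A * (ε / (2 * (A + 1)) * L) = (A / (A + 1)) * (ε / 2 * L) := by
        field_simp
      rw [h6]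
      have h7 : A / (A + 1) ≤ 1 := by
        rw [div_le_one (by linarith)]
        linarith
      have h8 : 0 ≤ ε / 2 * L := by positivity
      nlinarith
    have h9 : A * B ≤ ε / 2 * L := by
      have h10 : 2 * A * |B| / ε ≤ L := by linarith
      rw [div_le_iff₀ hε] at h10
      have h11 : A * B ≤ A * |B| := mul_le_mul_of_nonneg_left (le_abs_self _) hA
      linarith
    linarith [mul_add A (Real.log L) B]
  exact Real.tendsto_log_atTop.eventually h1

theorem vb (K w : ℕ) (hw : 2 * K ≤ w) (a ε : ℝ) (ha : 0 < a) (ha1 : a ≤ 1) (hε : 0 < ε) :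
    ∀ᶠ x : ℝ in atTop, ∀ W : ℕ, primorial w ∣ W →
      x ^ (-ε) ≤ Pool.Agent.H95.FL.vv (fun p => (K : ℝ) / p) (PP x a W) ∧
      ∏ p ∈ PP x a W, (1 + (K : ℝ) / p) ≤ x ^ ε := by
  obtain ⟨C, hC, hmer⟩ := Pool.Agent.H75.AP.mertens_upper
  have hK : (0 : ℝ) ≤ K := Nat.cast_nonneg K
  filter_upwards [vb_ev (2 * K) C ε (by positivity) hε, eventually_ge_atTop 3,
    Real.tendsto_log_atTop.eventually_ge_atTop 1] with x hx1 hx3 hxl W hwW
  have hx0 : 0 < x := by linarith
  have hmem : ∀ p ∈ PP x a W, p.Prime ∧ (w : ℝ) < p ∧ (p : ℝ) ≤ x := by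
    intro p hp
    unfold PP at hp
    rw [mem_filter, mem_range, Nat.lt_ceil] at hp
    refine ⟨hp.2.1, ?_, ?_⟩
    · exact_mod_cast prim_gt hwW hp.2.1 hp.2.2
    · refine hp.1.le.trans ?_
      have := Real.rpow_le_rpow_of_exponent_le (show 1 ≤ x by linarith) ha1
      rwa [Real.rpow_one] at this
  have hS : ∑ p ∈ PP x a W, 1 / (p : ℝ) ≤ Real.log (Real.log x) + C := by
    refine le_trans ?_ (hmer x hx3)
    apply Finset.sum_le_sum_of_subset_of_nonneg
    · intro p hp
      have h := hmem p hp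
      rw [Pool.Agent.H75.AP.MertB.mem_PI le_rfl]
      refine ⟨h.1, ?_, h.2.2⟩
      exact_mod_cast h.1.pos
    · intro p _ _
      positivity
  have hKp : ∀ p ∈ PP x a W, 0 < (p : ℝ) ∧ 0 ≤ (K : ℝ) / p ∧ (K : ℝ) / p ≤ 1 / 2 := by
    intro p hp
    have h := hmem p hp
    have hp0 : (0 : ℝ) < p := by exact_mod_cast h.1.pos
    have h2 : 2 * (K : ℝ) ≤ w := by exact_mod_cast hw
    refine ⟨hp0, by positivity, ?_⟩
    rw [div_le_iff₀ hp0]
    linarith [h.2.1]
  have hsum : ∀ c : ℝ, ∏ p ∈ PP x a W, Real.exp (c * (K / p)) =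
      Real.exp (c * K * ∑ p ∈ PP x a W, 1 / (p : ℝ)) := by
    intro c
    rw [← Real.exp_sum, Finset.mul_sum]
    congr 1
    refine Finset.sum_congr rfl fun p _ => ?_
    ring
  have hpow : ∀ c : ℝ, x ^ c = Real.exp (c * Real.log x) := by
    intro c
    rw [Real.rpow_def_of_pos hx0, mul_comm]
  constructor
  · unfold Pool.Agent.H95.FL.vv
    have h1 : ∏ p ∈ PP x a W, Real.exp ((-2) * (K / p)) ≤
        ∏ p ∈ PP x a W, (1 - (K : ℝ) / p) := by
      refine Finset.prod_le_prod (fun p _ => (Real.exp_pos _).le) fun p hp => ?_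
      have h := hKp p hp
      have h2 := vb_exp ((K : ℝ) / p) h.2.1 h.2.2
      rwa [show (-2 : ℝ) * (K / p) = -(2 * (K / p)) by ring]
    refine le_trans ?_ h1
    rw [hsum, hpow]
    apply Real.exp_le_exp.2
    have h3 : 2 * (K : ℝ) * ∑ p ∈ PP x a W, 1 / (p : ℝ) ≤
        2 * K * (Real.log (Real.log x) + C) := mul_le_mul_of_nonneg_left hS (by positivity)
    nlinarith
  · have h1 : ∏ p ∈ PP x a W, (1 + (K : ℝ) / p) ≤
        ∏ p ∈ PP x a W, Real.exp (1 * (K / p)) := by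
      refine Finset.prod_le_prod (fun p hp => ?_) fun p hp => ?_
      · have h := hKp p hp
        linarith [h.2.1]
      · rw [one_mul]
        have := Real.add_one_le_exp ((K : ℝ) / p)
        linarith
    refine h1.trans ?_
    rw [hsum, hpow]
    apply Real.exp_le_exp.2
    have hll : 0 ≤ Real.log (Real.log x) := Real.log_nonneg hxl
    have h3 : 1 * (K : ℝ) * ∑ p ∈ PP x a W, 1 / (p : ℝ) ≤
        1 * K * (Real.log (Real.log x) + C) := mul_le_mul_of_nonneg_left hS (by positivity)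
    have h4 : 0 ≤ (K : ℝ) * (Real.log (Real.log x) + C) := by positivity
    nlinarith

end Pool.Agent.H72.NU
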