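import Pool.Agent.H72.NU.Pp
import Pool.Agent.H95.UL.One

/-!
# [H72 NU ONE] The law (L1), uniform (helper95's `one_lawU` in the form of `Def.lean`)
-/

namespace Pool.Agent.H72.NU

open Finset Filter Topology Pool.Agent.H92.MM Pool.Agent.H95.L1

theorem one_lawU (η Θ : ℝ) (hη : 0 < η) (hη1 : η ≤ 1 / 8) (hΘ : 0 < Θ) : OneLawU η Θ := by
  obtain ⟨c0, hc0, H⟩ := Pool.Agent.H95.UL.one_lawU η Θ hη hη1 hΘ
  refine ⟨c0, hc0, ?_⟩
  intro ι _ _ _ a L ha haL hK A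
  obtain ⟨w0, H⟩ := H ι a L ha haL hK A
  refine ⟨w0, fun w hw => ?_⟩
  filter_upwards [H w hw] with x hx h W b hk
  exact hx h W b hk.W_pos hk.pw hk.wle hk.dif hk.cop

end Pool.Agent.H72.NU
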